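import Mathlib

set_option autoImplicit false

/-! A matrix over the field with three elements becomes invertible after addition, and also after
subtraction, of a suitable diagonal matrix. -/

namespace Pool.Agent.H198.CT

open Matrix

theorem det_cons {n : ℕ} (L : Matrix (Fin (n + 1)) (Fin (n + 1)) (ZMod 3)) (a : Fin n → ZMod 3)
    (x : ZMod 3) :
    (L + diagonal (Fin.cons x a : Fin (n + 1) → ZMod 3)).det =
      x * (L.submatrix Fin.succ Fin.succ + diagonal a).det +
        (L + diagonal (Fin.cons 0 a : Fin (n + 1) → ZMod 3)).det := by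
  have h0 : ∀ y : ZMod 3, (L + diagonal (Fin.cons y a : Fin (n + 1) → ZMod 3)).submatrix Fin.succ
      Fin.succ = L.submatrix Fin.succ Fin.succ + diagonal a := by
    intro y
    ext i k
    simp only [submatrix_apply, Matrix.add_apply, diagonal_apply, Fin.cons_succ, Fin.succ_inj]
  have h1 : ∀ (y : ZMod 3) (j : Fin n), (L + diagonal (Fin.cons y a : Fin (n + 1) → ZMod 3)).submatrix
      Fin.succ (Fin.succAbove j.succ) =
      (L + diagonal (Fin.cons 0 a : Fin (n + 1) → ZMod 3)).submatrix Fin.succ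
        (Fin.succAbove j.succ) := by
    intro y j
    ext i k
    simp only [submatrix_apply, Matrix.add_apply, diagonal_apply, Fin.cons_succ]
  have h2 : ∀ (y : ZMod 3) (j : Fin n), (L + diagonal (Fin.cons y a : Fin (n + 1) → ZMod 3)) 0
      j.succ = L 0 j.succ := by
    intro y j
    rw [Matrix.add_apply, diagonal_apply_ne _ (Fin.succ_ne_zero j).symm, add_zero]
  rw [det_succ_row_zero, det_succ_row_zero (L + diagonal (Fin.cons 0 a : Fin (n + 1) → ZMod 3)),
    Fin.sum_univ_succ, Fin.sum_univ_succ]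
  simp only [h1 x, h2, Fin.succAbove_zero, h0, Fin.val_zero, pow_zero, one_mul]
  simp only [Matrix.add_apply, diagonal_apply_eq, Fin.cons_zero]
  ring

theorem exists_fin : ∀ (n : ℕ) (L : Matrix (Fin n) (Fin n) (ZMod 3)), ∃ a : Fin n → ZMod 3,
    (L + diagonal a).det ≠ 0 ∧ (L + diagonal fun i => -a i).det ≠ 0
  | 0, L => ⟨fun _ => 0, by rw [det_fin_zero]; decide, by rw [det_fin_zero]; decide⟩
  | n + 1, L => by
    obtain ⟨a, h1, h2⟩ := exists_fin n (L.submatrix Fin.succ Fin.succ)
    have key : ∀ m c m' c' : ZMod 3, m ≠ 0 → m' ≠ 0 → ∃ x : ZMod 3, x * m + c ≠ 0 ∧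
        -x * m' + c' ≠ 0 := by decide
    obtain ⟨x, h3, h4⟩ := key _ (L + diagonal (Fin.cons 0 a : Fin (n + 1) → ZMod 3)).det _
      (L + diagonal (Fin.cons 0 (fun i => -a i) : Fin (n + 1) → ZMod 3)).det h1 h2
    refine ⟨(Fin.cons x a : Fin (n + 1) → ZMod 3), ?_, ?_⟩
    · rw [det_cons]
      exact h3
    · have h5 : (fun i => -(Fin.cons x a : Fin (n + 1) → ZMod 3) i) =
          (Fin.cons (-x) (fun i => -a i) : Fin (n + 1) → ZMod 3) := by
        funext i
        refine Fin.cases ?_ (fun j => ?_) i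
        · simp only [Fin.cons_zero]
        · simp only [Fin.cons_succ]
      rw [h5, det_cons]
      exact h4

theorem exists_diag {ι : Type} [Fintype ι] [DecidableEq ι] (L : Matrix ι ι (ZMod 3)) :
    ∃ a : ι → ZMod 3, (L + diagonal a).det ≠ 0 ∧ (L + diagonal fun i => -a i).det ≠ 0 := by
  classical
  let φ : Fin (Fintype.card ι) ≃ ι := (Fintype.equivFin ι).symm
  obtain ⟨a, h1, h2⟩ := exists_fin _ (L.submatrix φ φ)
  have h : ∀ b : Fin (Fintype.card ι) → ZMod 3,
      (L + diagonal fun i => b (φ.symm i)).submatrix φ φ = L.submatrix φ φ + diagonal b := by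
    intro b
    ext i k
    simp only [submatrix_apply, Matrix.add_apply, diagonal_apply, Equiv.symm_apply_apply,
      φ.injective.eq_iff]
  refine ⟨fun i => a (φ.symm i), ?_, ?_⟩
  · rw [← det_submatrix_equiv_self φ, h a]
    exact h1
  · rw [← det_submatrix_equiv_self φ, h (fun i => -a i)]
    exact h2

end Pool.Agent.H198.CT
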