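import Pool.Agent.H198.CT.Dia
import Pool.Graph.R_seed8.R419.CF.NS

set_option autoImplicit false

/-! The linear system after adjoining primes. -/

open scoped Classical

namespace Pool.Agent.H198.CT

open Finset
open Pool.Agent.Y703.CX (LamP lam)
open Pool.Agent.R419.CF (GdW SolW wt)
open Pool.Agent.R419.CF.NS (MD)
open Pool.Agent.Y703.CT (Cls NoSplit Base)

theorem wt_cases (M : Finset ℕ) (q : ℕ) : wt M q = 1 ∨ wt M q = 2 := by
  unfold wt
  by_cases h : q ∈ M
  · rw [if_pos h]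
    exact Or.inr rfl
  · rw [if_neg h]
    exact Or.inl rfl

theorem wt_ne (M : Finset ℕ) (q : ℕ) : wt M q ≠ 0 := by
  rcases wt_cases M q with h | h <;> rw [h] <;> decide

/-- the diagonal for the new prime -/
theorem exists_a (M S : Finset ℕ) (q : ℕ) (hq : q ∈ S) : ∃ a : ℕ → ZMod 3,
    ∀ w : ZMod 3, w = 1 ∨ w = 2 → ∀ c : ℕ → ZMod 3, c q = 0 →
      (∀ r ∈ S, r ≠ q → ∑ s ∈ S, (c s - c r) * (wt M s * lam r s) - w * a r * c r = 0) →
      ∀ r ∈ S, c r = 0 := by
  let T := S.erase q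
  let L : Matrix T T (ZMod 3) := fun r s => wt M s * lam r s -
    if r = s then ∑ t ∈ S, wt M t * lam r t else 0
  obtain ⟨a', h1, h2⟩ := exists_diag L
  let a : ℕ → ZMod 3 := fun r => if h : r ∈ T then a' ⟨r, h⟩ else 0
  have ha : ∀ r : T, a r = a' r := fun r => dif_pos r.2
  refine ⟨a, fun w hw c hcq hc => ?_⟩
  have hsum : ∀ (b : T → ZMod 3) (r : T), ((L + Matrix.diagonal b).mulVec fun s => c s) r =
      ∑ s ∈ S, (c s - c r) * (wt M s * lam r s) + b r * c r := by
    intro b r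
    rw [Matrix.add_mulVec, Pi.add_apply, Matrix.mulVec_diagonal]
    congr 1
    have e1 : L.mulVec (fun s : T => c s) r = ∑ s : T, (wt M s * lam r s * c s -
        if r = s then (∑ t ∈ S, wt M t * lam r t) * c s else 0) := by
      show ∑ s : T, (wt M s * lam r s - if r = s then ∑ t ∈ S, wt M t * lam r t else 0) * c s = _
      refine Finset.sum_congr rfl fun s _ => ?_
      by_cases h : r = s
      · rw [if_pos h, if_pos h]
        ring
      · rw [if_neg h, if_neg h]
        ring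
    rw [e1, Finset.sum_sub_distrib, Finset.sum_ite_eq, if_pos (Finset.mem_univ _)]
    have e2 : ∑ s : T, wt M s * lam r s * c s = ∑ s ∈ S, wt M s * lam r s * c s := by
      rw [Finset.sum_coe_sort T (fun s => wt M s * lam r s * c s), Finset.sum_erase]
      rw [hcq, mul_zero]
    rw [e2, Finset.sum_mul, ← Finset.sum_sub_distrib]
    refine Finset.sum_congr rfl fun s _ => ?_
    ring
  have key : ∀ b : T → ZMod 3, (L + Matrix.diagonal b).det ≠ 0 → (∀ r : T, b r = -(w * a r)) →
      ∀ r ∈ S, c r = 0 := by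
    intro b hb hb2 r hr
    by_cases hrq : r = q
    · rw [hrq, hcq]
    · have h3 : (fun s : T => c s) = 0 := by
        by_contra h4
        refine hb (Matrix.exists_mulVec_eq_zero_iff.1 ⟨_, h4, ?_⟩)
        funext s
        rw [hsum, hb2]
        have h5 := hc s (Finset.mem_of_mem_erase s.2) (Finset.ne_of_mem_erase s.2)
        rw [Pi.zero_apply, ← h5]
        ring
      exact congrFun h3 (⟨r, Finset.mem_erase.2 ⟨hrq, hr⟩⟩ : T)
  rcases hw with rfl | rfl
  · refine key _ h2 fun r => ?_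
    rw [ha]
    ring
  · refine key _ h1 fun r => ?_
    rw [ha]
    have h6 : ∀ x : ZMod 3, x = -(2 * x) := by decide
    exact h6 _

theorem nosplit_ext (hL : LamP) {D D' : ℕ} (hD' : Cls D') {F : Finset ℕ}
    (hpf : D'.primeFactors = D.primeFactors ∪ F) (hdisj : Disjoint D.primeFactors F)
    (hw : ∀ s ∈ D.primeFactors, wt (MD D') s = wt (MD D) s) {q : ℕ} (hq : q ∈ D.primeFactors)
    (h1 : ∀ s ∈ D.primeFactors, s ≠ q → s % 3 = 1) (a : ℕ → ZMod 3)
    (ha : ∀ w : ZMod 3, w = 1 ∨ w = 2 → ∀ c : ℕ → ZMod 3, c q = 0 →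
      (∀ r ∈ D.primeFactors, r ≠ q →
        ∑ s ∈ D.primeFactors, (c s - c r) * (wt (MD D) s * lam r s) - w * a r * c r = 0) →
      ∀ r ∈ D.primeFactors, c r = 0)
    (hF : ∀ p ∈ F, p % 3 = 1 ∧ lam p q ≠ 0 ∧ (∀ s ∈ D.primeFactors, s ≠ q → lam p s = 0) ∧
      ∀ p' ∈ F, p' ≠ p → lam p p' = 0) {p₀ : ℕ} (hp₀ : p₀ ∈ F)
    (hS : ∀ s ∈ D.primeFactors, s ≠ q → lam s p₀ = a s ∧ ∀ p ∈ F, p ≠ p₀ → lam s p = 0) :
    NoSplit D' := by
  refine Pool.Agent.R419.CF.NS.nosplit_of_gdw hL hD' fun c hc => ?_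
  have hcF : ∀ p ∈ F, c p = c q := by
    intro p hp
    obtain ⟨g1, g2, g3, g4⟩ := hF p hp
    have h := hc p (by rw [hpf]; exact mem_union_right _ hp) g1
    rw [hpf, sum_union hdisj, Finset.sum_eq_zero (s := F), add_zero,
      Finset.sum_eq_single_of_mem q hq] at h
    · rcases mul_eq_zero.1 h with h5 | h5
      · exact (sub_eq_zero.1 h5).symm
      · exfalso
        rcases mul_eq_zero.1 h5 with h6 | h6
        · exact wt_ne _ _ h6
        · exact g2 h6
    · intro s hs hsq
      rw [g3 s hs hsq, mul_zero, mul_zero]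
    · intro p' hp'
      by_cases hpp : p' = p
      · rw [hpp, sub_self, zero_mul]
      · rw [g4 p' hp' hpp, mul_zero, mul_zero]
  have hcS : ∀ r ∈ D.primeFactors, c r - c q = 0 := by
    refine ha (wt (MD D') p₀) (wt_cases _ _) (fun x => c x - c q) (sub_self _) ?_
    intro r hr hrq
    have h := hc r (by rw [hpf]; exact mem_union_left _ hr) (h1 r hr hrq)
    rw [hpf, sum_union hdisj, Finset.sum_eq_single_of_mem (s := F) p₀ hp₀, hcF p₀ hp₀,
      (hS r hr hrq).1] at h
    · rw [← h, sub_eq_add_neg]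
      congr 1
      · refine sum_congr rfl fun s hs => ?_
        rw [hw s hs]
        ring
      · ring
    · intro p hp hpp
      rw [(hS r hr hrq).2 p hp hpp, mul_zero, mul_zero]
  have hall : ∀ r ∈ D'.primeFactors, c r = c q := by
    intro r hr
    rw [hpf, mem_union] at hr
    rcases hr with hr | hr
    · exact sub_eq_zero.1 (hcS r hr)
    · exact hcF r hr
  intro r hr s hs
  rw [hall r hr, hall s hs]

end Pool.Agent.H198.CT
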