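import Pool.Agent.H198.CT.Ext
import Pool.Agent.H198.CT.Sys
import Pool.Graph.R_seed8.R486.TC.FinPts
import Pool.Graph.R_seed8.R486.TC.NoPt

set_option autoImplicit false

/-! An infinite set of primes, and products of powers of its elements. -/

open scoped Classical

namespace Pool.Agent.H198.CT

open Finset
open Pool.Agent.Y703.CX (LamP lam)
open Pool.Agent.R419.CF (GdW SolW wt)
open Pool.Agent.R419.CF.NS (MD)
open Pool.Agent.Y703.CT (Cls NoSplit Base)

/-- the greedy set of primes -/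
def Gr (q : ℕ) (S : Finset ℕ) (B : ℕ) (p : ℕ) : Prop :=
  (p.Prime ∧ B < p ∧ p % 9 = 1 ∧ lam p q ≠ 0 ∧ ∀ s ∈ S, lam s p = 0 ∧ lam p s = 0) ∧
    ∀ r, r < p → Gr q S B r → lam r p = 0 ∧ lam p r = 0
termination_by p

theorem gr_iff (q : ℕ) (S : Finset ℕ) (B : ℕ) (p : ℕ) : Gr q S B p ↔
    ((p.Prime ∧ B < p ∧ p % 9 = 1 ∧ lam p q ≠ 0 ∧ ∀ s ∈ S, lam s p = 0 ∧ lam p s = 0) ∧
    ∀ r, r < p → Gr q S B r → lam r p = 0 ∧ lam p r = 0) := by
  conv_lhs => rw [Gr]

theorem gr_pair {q : ℕ} {S : Finset ℕ} {B p r : ℕ} (hp : Gr q S B p) (hr : Gr q S B r)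
    (h : r ≠ p) : lam p r = 0 := by
  rcases lt_or_gt_of_ne h with h | h
  · exact (((gr_iff _ _ _ _).1 hp).2 r h hr).2
  · exact (((gr_iff _ _ _ _).1 hr).2 p h hp).1

theorem gr_infinite (hL : LamP) {q : ℕ} (hq : q.Prime) (hq3 : q % 3 = 2) (S : Finset ℕ)
    (hS : ∀ s ∈ S, s.Prime ∧ s % 3 = 1) (B : ℕ) : {p | Gr q S B p}.Infinite := by
  refine Set.infinite_of_not_bddAbove ?_
  rintro ⟨N, hN⟩
  obtain ⟨p, hp, hpB, hp9, hpq, hpS⟩ := extend hL hq hq3
    (S ∪ (Finset.range (N + 1)).filter fun r => Gr q S B r) (by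
      intro s hs
      rcases mem_union.1 hs with h | h
      · exact hS s h
      · obtain ⟨⟨h1, -, h2, -⟩, -⟩ := (gr_iff _ _ _ _).1 (mem_filter.1 h).2
        exact ⟨h1, by omega⟩) (fun _ => 0) (max B N)
  have hg : Gr q S B p := by
    rw [gr_iff]
    refine ⟨⟨hp, lt_of_le_of_lt (le_max_left _ _) hpB, hp9, hpq,
      fun s hs => hpS s (mem_union_left _ hs)⟩, fun r _ hr => hpS r (mem_union_right _ ?_)⟩
    exact mem_filter.2 ⟨mem_range.2 (Nat.lt_succ_of_le (hN hr)), hr⟩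
  have h1 := hN hg
  have h2 := lt_of_le_of_lt (le_max_right B N) hpB
  exact absurd h1 (by simpa using h2)

/-- a number composed of primes that are one modulo nine -/
theorem mod_nine {E : ℕ} (hE : E ≠ 0) (h : ∀ p : ℕ, p.Prime → p ∣ E → p % 9 = 1) : E % 9 = 1 := by
  have h1 : ((E : ℕ) : ZMod 9) = 1 := by
    rw [← Nat.factorization_prod_pow_eq_self hE]
    unfold Finsupp.prod
    rw [Nat.cast_prod]
    refine prod_eq_one fun p hp => ?_
    have h2 := h p (Nat.prime_of_mem_primeFactors hp) (Nat.dvd_of_mem_primeFactors hp)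
    have h3 : ((p : ℕ) : ZMod 9) = ((1 : ℕ) : ZMod 9) := by
      rw [ZMod.natCast_eq_natCast_iff]
      exact h2
    rw [Nat.cast_pow, h3, Nat.cast_one, one_pow]
  have h2 : ((E : ℕ) : ZMod 9) = ((1 : ℕ) : ZMod 9) := by rw [h1, Nat.cast_one]
  rw [ZMod.natCast_eq_natCast_iff] at h2
  exact h2

/-- the cube-free part -/
theorem cube_free_part {m : ℕ} (hm : m ≠ 0) : ∃ E K : ℕ, E ≠ 0 ∧ K ≠ 0 ∧ m = E * K ^ 3 ∧
    ∀ p, E.factorization p = m.factorization p % 3 := by
  let f : ℕ →₀ ℕ := m.factorization.mapRange (fun x => x % 3) rfl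
  let g : ℕ →₀ ℕ := m.factorization.mapRange (fun x => x / 3) rfl
  have hf : ∀ p ∈ f.support, p.Prime := fun p hp =>
    Nat.prime_of_mem_primeFactors (Finsupp.support_mapRange hp)
  have hg : ∀ p ∈ g.support, p.Prime := fun p hp =>
    Nat.prime_of_mem_primeFactors (Finsupp.support_mapRange hp)
  have e1 := Nat.prod_pow_factorization_eq_self hf
  have e2 := Nat.prod_pow_factorization_eq_self hg
  have n1 : f.prod (· ^ ·) ≠ 0 := by
    unfold Finsupp.prod
    exact prod_ne_zero_iff.2 fun p hp => pow_ne_zero _ (hf p hp).ne_zero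
  have n2 : g.prod (· ^ ·) ≠ 0 := by
    unfold Finsupp.prod
    exact prod_ne_zero_iff.2 fun p hp => pow_ne_zero _ (hg p hp).ne_zero
  refine ⟨f.prod (· ^ ·), g.prod (· ^ ·), n1, n2, ?_, fun p => ?_⟩
  · refine Nat.eq_of_factorization_eq hm (mul_ne_zero n1 (pow_ne_zero _ n2)) fun p => ?_
    rw [Nat.factorization_mul n1 (pow_ne_zero _ n2), Nat.factorization_pow, e1, e2,
      Finsupp.add_apply, Finsupp.smul_apply]
    show m.factorization p = m.factorization p % 3 + 3 * (m.factorization p / 3)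
    omega
  · rw [e1]
    rfl

theorem main (hL : LamP) {D : ℕ} (hD : Cls D) (B : ℕ) : ∃ (p₀ : ℕ) (P : Set ℕ),
    p₀.Prime ∧ B < p₀ ∧ p₀ % 9 = 1 ∧ P.Infinite ∧ (∀ p ∈ P, p.Prime ∧ p₀ < p ∧ p % 9 = 1) ∧
    ∀ m : ℕ, m ≠ 0 → (∀ p : ℕ, p.Prime → p ∣ m → p = p₀ ∨ p ∈ P) →
      ¬ 3 ∣ m.factorization p₀ → ∃ E K : ℕ, K ≠ 0 ∧ m = E * K ^ 3 ∧ Cls (D * E) ∧
        NoSplit (D * E) ∧ p₀ ∣ E := by
  obtain ⟨⟨hD0, hD3, hDcf⟩, hD1, hD8, q, hq, hq3, hqD, hqu⟩ := id hD
  have hqm : q ∈ D.primeFactors := Nat.mem_primeFactors.2 ⟨hq, hqD, hD0⟩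
  have h1 : ∀ s ∈ D.primeFactors, s ≠ q → s % 3 = 1 := fun s hs hsq =>
    hqu s (Nat.prime_of_mem_primeFactors hs) (Nat.dvd_of_mem_primeFactors hs) hsq
  obtain ⟨a, ha⟩ := exists_a (MD D) D.primeFactors q hqm
  have hT : ∀ s ∈ D.primeFactors.erase q, s.Prime ∧ s % 3 = 1 := fun s hs =>
    ⟨Nat.prime_of_mem_primeFactors (mem_of_mem_erase hs),
      h1 s (mem_of_mem_erase hs) (ne_of_mem_erase hs)⟩
  obtain ⟨p₀, hp, hpB, hp9, hpq, hpS⟩ := extend hL hq hq3 (D.primeFactors.erase q) hT a (max B D)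
  have hp₀D : D < p₀ := lt_of_le_of_lt (le_max_right _ _) hpB
  let S := insert p₀ (D.primeFactors.erase q)
  have hS : ∀ s ∈ S, s.Prime ∧ s % 3 = 1 := by
    intro s hs
    rcases mem_insert.1 hs with rfl | hs
    · exact ⟨hp, by omega⟩
    · exact hT s hs
  refine ⟨p₀, {p | Gr q S p₀ p}, hp, lt_of_le_of_lt (le_max_left _ _) hpB, hp9,
    gr_infinite hL hq hq3 S hS p₀, fun p hp => ?_, fun m hm hmp hm3 => ?_⟩
  · obtain ⟨⟨g1, g2, g3, -⟩, -⟩ := (gr_iff _ _ _ _).1 hp
    exact ⟨g1, g2, g3⟩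
  · obtain ⟨E, K, hE, hK, hEK, hfac⟩ := cube_free_part hm
    have hEm : E ∣ m := ⟨K ^ 3, hEK⟩
    have hEp : ∀ p ∈ E.primeFactors, p = p₀ ∨ Gr q S p₀ p := fun p hp =>
      hmp p (Nat.prime_of_mem_primeFactors hp) ((Nat.dvd_of_mem_primeFactors hp).trans hEm)
    have hEp9 : ∀ p ∈ E.primeFactors, p₀ ≤ p ∧ p % 9 = 1 := by
      intro p hp
      rcases hEp p hp with rfl | h
      · exact ⟨le_rfl, hp9⟩
      · obtain ⟨⟨-, g2, g3, -⟩, -⟩ := (gr_iff _ _ _ _).1 h
        exact ⟨g2.le, g3⟩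
    have hdisj : Disjoint D.primeFactors E.primeFactors := by
      rw [Finset.disjoint_left]
      intro p hp hp'
      have g1 := Nat.le_of_dvd (Nat.pos_of_ne_zero hD0) (Nat.dvd_of_mem_primeFactors hp)
      have g2 := (hEp9 p hp').1
      omega
    have hcop : Nat.Coprime D E := Nat.disjoint_primeFactors hD0 hE |>.1 hdisj
    have hpf : (D * E).primeFactors = D.primeFactors ∪ E.primeFactors :=
      Nat.primeFactors_mul hD0 hE
    have hp₀E : p₀ ∈ E.primeFactors := by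
      refine Nat.mem_primeFactors.2 ⟨hp, ?_, hE⟩
      by_contra h
      have g1 := Nat.factorization_eq_zero_of_not_dvd h
      rw [hfac] at g1
      exact hm3 (Nat.dvd_of_mod_eq_zero g1)
    have hE9 : E % 9 = 1 := mod_nine hE fun p hp hpE =>
      (hEp9 p (Nat.mem_primeFactors.2 ⟨hp, hpE, hE⟩)).2
    have hDE9 : D * E % 9 = D % 9 := by
      rw [Nat.mul_mod, hE9, mul_one, Nat.mod_mod]
    have hcls : Cls (D * E) := by
      refine ⟨⟨mul_ne_zero hD0 hE, ?_, ?_⟩, by rw [hDE9]; exact hD1, by rw [hDE9]; exact hD8, q, hq,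
        hq3, hqD.mul_right E, ?_⟩
      · intro h3
        rcases (Nat.prime_three.dvd_mul).1 h3 with h | h
        · exact hD3 h
        · have := (hEp9 3 (Nat.mem_primeFactors.2 ⟨Nat.prime_three, h, hE⟩)).2
          omega
      · intro p hp h3
        rw [hp.pow_dvd_iff_le_factorization (mul_ne_zero hD0 hE), Nat.factorization_mul hD0 hE,
          Finsupp.add_apply] at h3
        have g1 : ¬ 3 ≤ D.factorization p := fun h =>
          hDcf p hp ((hp.pow_dvd_iff_le_factorization hD0).2 h)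
        have g2 : E.factorization p < 3 := by
          rw [hfac]
          exact Nat.mod_lt _ (by norm_num)
        by_cases hpD : p ∣ D
        · have g3 : E.factorization p = 0 := Nat.factorization_eq_zero_of_not_dvd fun h =>
            Finset.disjoint_left.1 hdisj (Nat.mem_primeFactors.2 ⟨hp, hpD, hD0⟩)
              (Nat.mem_primeFactors.2 ⟨hp, h, hE⟩)
          omega
        · have g3 : D.factorization p = 0 := Nat.factorization_eq_zero_of_not_dvd hpD
          omega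
      · intro p hp hpd hpq
        rcases (hp.dvd_mul).1 hpd with h | h
        · exact hqu p hp h hpq
        · have := (hEp9 p (Nat.mem_primeFactors.2 ⟨hp, h, hE⟩)).2
          omega
    refine ⟨E, K, hK, hEK, hcls, ?_, Nat.dvd_of_mem_primeFactors hp₀E⟩
    refine nosplit_ext hL hcls hpf hdisj ?_ hqm h1 a ha ?_ hp₀E ?_
    · intro s hs
      have hsp := Nat.prime_of_mem_primeFactors hs
      have hsE : ¬ s ∣ E := fun h => Finset.disjoint_left.1 hdisj hs
        (Nat.mem_primeFactors.2 ⟨hsp, h, hE⟩)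
      have g1 : s ∈ MD (D * E) ↔ s ∈ MD D := by
        unfold MD
        rw [mem_filter, mem_filter]
        have g2 : s ^ 2 ∣ D * E ↔ s ^ 2 ∣ D := by
          constructor
          · intro h
            exact (Nat.Coprime.pow_left 2 ((Nat.Prime.coprime_iff_not_dvd hsp).2 hsE)).dvd_of_dvd_mul_right h
          · intro h
            exact h.mul_right E
        rw [g2, hpf, mem_union]
        constructor
        · rintro ⟨-, h⟩
          exact ⟨hs, h⟩
        · rintro ⟨-, h⟩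
          exact ⟨Or.inl hs, h⟩
      unfold wt
      by_cases h : s ∈ MD D
      · rw [if_pos h, if_pos (g1.2 h)]
      · rw [if_neg h, if_neg fun h' => h (g1.1 h')]
    · intro p hpE
      have hp3 : p % 3 = 1 := by
        have := (hEp9 p hpE).2
        omega
      rcases hEp p hpE with rfl | hg
      · refine ⟨hp3, hpq, fun s hs hsq => (hpS s (mem_erase.2 ⟨hsq, hs⟩)).2, fun p' hp' hne => ?_⟩
        rcases hEp p' hp' with rfl | hg'
        · exact absurd rfl hne
        · exact (((gr_iff _ _ _ _).1 hg').1.2.2.2.2 p (mem_insert_self _ _)).1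
      · obtain ⟨⟨g1, g2, g3, g4, g5⟩, g6⟩ := (gr_iff _ _ _ _).1 hg
        refine ⟨hp3, g4, fun s hs hsq => (g5 s (mem_insert_of_mem (mem_erase.2 ⟨hsq, hs⟩))).2,
          fun p' hp' hne => ?_⟩
        rcases hEp p' hp' with rfl | hg'
        · exact (g5 p' (mem_insert_self _ _)).2
        · exact gr_pair hg hg' hne
    · intro s hs hsq
      refine ⟨(hpS s (mem_erase.2 ⟨hsq, hs⟩)).1, fun p hpE hne => ?_⟩
      rcases hEp p hpE with rfl | hg
      · exact absurd rfl hne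
      · exact (((gr_iff _ _ _ _).1 hg).1.2.2.2.2 s (mem_insert_of_mem (mem_erase.2 ⟨hsq, hs⟩))).1

end Pool.Agent.H198.CT
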